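import Pool.Agent.helper10.V3.SpecL

set_option autoImplicit false

open Complex Metric Set Filter Topology MeasureTheory MPS

noncomputable section

namespace V3S

theorem ISO (hISL : ISL_stmt) (hALC : ALC_stmt) (hLMB : LMB_stmt) : ISO_stmt := by
  intro n ra Cf D hS K hK hKR ε hε
  obtain ⟨hdiff, hconv, _⟩ := hLMB n ra Cf D hS
  have hKP : K ⊆ (Pin D)ᶜ := fun x hx => (hKR hx).1
  have hloc : ∃ C : ℝ, ∀ᶠ m in UF, ∀ j ≤ (D m).k, ∀ y ∈ K,
      ‖deriv ((D m).F j) y ^ 2 * (D m).B ((D m).F j y) - (D m).B y‖ ≤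
        C * ‖(D m).lam‖ * ‖(D m).B y‖ := by
    refine hK.induction_on (p := fun s => ∃ C : ℝ, ∀ᶠ m in UF, ∀ j ≤ (D m).k, ∀ y ∈ s,
      ‖deriv ((D m).F j) y ^ 2 * (D m).B ((D m).F j y) - (D m).B y‖ ≤
        C * ‖(D m).lam‖ * ‖(D m).B y‖) ?_ ?_ ?_ ?_
    · exact ⟨0, Filter.Eventually.of_forall fun m j _ y hy => absurd hy (Set.notMem_empty y)⟩
    · rintro s t hst ⟨C, hC⟩
      exact ⟨C, hC.mono fun m hm j hj y hy => hm j hj y (hst hy)⟩
    · rintro s t ⟨C₁, h1⟩ ⟨C₂, h2⟩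
      refine ⟨max C₁ C₂, ?_⟩
      filter_upwards [h1, h2] with m hm1 hm2 j hj y hy
      rcases hy with hy | hy
      · refine (hm1 j hj y hy).trans ?_
        gcongr
        exact le_max_left _ _
      · refine (hm2 j hj y hy).trans ?_
        gcongr
        exact le_max_right _ _
    · intro x hx
      obtain ⟨ρ, hρ, C, hC⟩ := hISL n ra Cf D hS x (hKR hx) (hALC n ra Cf D hS x (hKR hx))
      exact ⟨ball x ρ, mem_nhdsWithin_of_mem_nhds (ball_mem_nhds x hρ), C, hC⟩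
  obtain ⟨C, hC⟩ := hloc
  obtain ⟨M, hM⟩ := hK.exists_bound_of_continuousOn (hdiff.continuousOn.mono hKP)
  have hM0 : ∀ y ∈ K, ‖Bin D y‖ ≤ |M| := fun y hy => (hM y hy).trans (le_abs_self M)
  have hu := hconv K hK hKP
  rw [Metric.tendstoUniformlyOn_iff] at hu
  have hmin : 0 < min (ε / 2) 1 := lt_min (by linarith) one_pos
  have hu1 := hu _ hmin
  have hlam : ∀ᶠ m in UF, ‖(D m).lam‖ < ε / (2 * ((|C| + 1) * (|M| + 1))) := by
    have h1 : Tendsto (fun m => ‖(D m).lam‖) atTop (𝓝 0) := by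
      have := hS.lim.norm
      rwa [norm_zero] at this
    have h2 : ∀ᶠ m in atTop, ‖(D m).lam‖ < ε / (2 * ((|C| + 1) * (|M| + 1))) := by
      apply h1.eventually_lt_const
      positivity
    exact h2.filter_mono UF_le
  filter_upwards [hC, hu1, hlam] with m hm1 hm2 hm3 j hj x hx
  have hB1 : ‖(D m).B x - Bin D x‖ < min (ε / 2) 1 := by
    have := hm2 x hx
    rwa [dist_comm, dist_eq_norm] at this
  have hB2 : ‖(D m).B x‖ ≤ |M| + 1 := by
    calc ‖(D m).B x‖ = ‖((D m).B x - Bin D x) + Bin D x‖ := by rw [sub_add_cancel]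
      _ ≤ ‖(D m).B x - Bin D x‖ + ‖Bin D x‖ := norm_add_le _ _
      _ ≤ 1 + |M| := add_le_add (hB1.le.trans (min_le_right _ _)) (hM0 x hx)
      _ = |M| + 1 := add_comm _ _
  have hden : 0 < 2 * ((|C| + 1) * (|M| + 1)) := by positivity
  rw [lt_div_iff₀ hden] at hm3
  have h3 : C * ‖(D m).lam‖ * ‖(D m).B x‖ ≤ ε / 2 := by
    calc C * ‖(D m).lam‖ * ‖(D m).B x‖ ≤ (|C| + 1) * ‖(D m).lam‖ * (|M| + 1) := by
          gcongr
          exact (le_abs_self C).trans (by linarith)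
      _ = ‖(D m).lam‖ * (2 * ((|C| + 1) * (|M| + 1))) / 2 := by ring
      _ ≤ ε / 2 := by linarith
  calc ‖deriv ((D m).F j) x ^ 2 * (D m).B ((D m).F j x) - Bin D x‖
      = ‖(deriv ((D m).F j) x ^ 2 * (D m).B ((D m).F j x) - (D m).B x) +
          ((D m).B x - Bin D x)‖ := by rw [sub_add_sub_cancel]
    _ ≤ ‖deriv ((D m).F j) x ^ 2 * (D m).B ((D m).F j x) - (D m).B x‖ +
          ‖(D m).B x - Bin D x‖ := norm_add_le _ _
    _ ≤ ε / 2 + ε / 2 := add_le_add ((hm1 j hj x hx).trans h3) (hB1.le.trans (min_le_left _ _))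
    _ = ε := by ring

end V3S
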