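import Pool.Agent.helper36.V3.SpecW

set_option autoImplicit false

open Complex Metric Set Filter Topology MeasureTheory MPS Pool.Agent.helper98.ILF Pool.Agent.helper16.Multibrot

noncomputable section

namespace V3W

theorem UER_fd (n : ℕ) (c z : ℂ) :
    PPS.fd (Polynomial.X ^ n + Polynomial.C c) z = MPS.fd n z := by
  unfold PPS.fd MPS.fd
  rw [Polynomial.derivative_add, Polynomial.derivative_C, add_zero, Polynomial.derivative_X_pow,
    Polynomial.eval_mul, Polynomial.eval_C, Polynomial.eval_pow, Polynomial.eval_X]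

theorem UER_fdd (n : ℕ) (hn : 2 ≤ n) (c z : ℂ) :
    PPS.fdd (Polynomial.X ^ n + Polynomial.C c) z = MPS.fdd n z := by
  unfold PPS.fdd MPS.fdd
  rw [Polynomial.derivative_add, Polynomial.derivative_C, add_zero, Polynomial.derivative_X_pow,
    Polynomial.derivative_C_mul, Polynomial.derivative_X_pow,
    Polynomial.eval_mul, Polynomial.eval_mul, Polynomial.eval_C, Polynomial.eval_C,
    Polynomial.eval_pow, Polynomial.eval_X, Nat.cast_sub (by omega : 1 ≤ n), Nat.cast_one,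
    Nat.sub_sub, mul_assoc]

theorem UER_deg (n : ℕ) (hn : 2 ≤ n) (c : ℂ) :
    (Polynomial.X ^ n + Polynomial.C c : Polynomial ℂ).natDegree = n :=
  Polynomial.natDegree_X_pow_add_C

theorem UER_coeff (n : ℕ) (c : ℂ) (l : ℕ) :
    (Polynomial.X ^ n + Polynomial.C c : Polynomial ℂ).derivative.coeff l =
      if l = n - 1 then (n : ℂ) else 0 := by
  rw [Polynomial.derivative_add, Polynomial.derivative_C, add_zero, Polynomial.derivative_X_pow,
    Polynomial.coeff_C_mul, Polynomial.coeff_X_pow]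
  split_ifs
  · rw [mul_one]
  · rw [mul_zero]

theorem UER_QQ (n k : ℕ) [NeZero k] (hn : 2 ≤ n) (c : ℂ) (b g : ZMod k → ℂ) (y : ℂ) :
    PPS.QQ (Polynomial.X ^ n + Polynomial.C c) b g y =
      ∑ m ∈ Finset.range (n - 1), PPS.lam (Polynomial.X ^ n + Polynomial.C c) b g m *
        ((n : ℂ) * y ^ (n - 2 - m)) := by
  unfold PPS.QQ
  rw [UER_deg n hn c]
  apply Finset.sum_congr rfl
  intro m hm
  rw [Finset.mem_range] at hm
  congr 1
  rw [Finset.sum_eq_single (n - 1)]
  · rw [UER_coeff, if_pos rfl]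
    congr 2
  · intro l _ hl
    rw [UER_coeff, if_neg hl, zero_mul]
  · intro h
    exact absurd (Finset.mem_Ico.2 ⟨by omega, by omega⟩) h

theorem UER_CV (n : ℕ) (hn : 2 ≤ n) (c : ℂ) :
    PPS.CV (Polynomial.X ^ n + Polynomial.C c) ⊆ {c} := by
  rintro v ⟨y, hy, hv⟩
  rw [UER_fd] at hy
  unfold MPS.fd at hy
  have hn0 : (n : ℂ) ≠ 0 := by
    exact_mod_cast (by omega : n ≠ 0)
  have hy0 : y = 0 := by
    rcases mul_eq_zero.1 hy with h | h
    · exact absurd h hn0
    · exact pow_eq_zero_iff (by omega) |>.1 h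
  rw [Set.mem_singleton_iff, ← hv, hy0, Polynomial.eval_add, Polynomial.eval_pow,
    Polynomial.eval_X, Polynomial.eval_C, zero_pow (by omega), zero_add]

theorem UER_root (n : ℕ) (a : ℂ) (s : Finset ℂ) (hs : ∀ y, y ∈ s ↔ y ^ n = a)
    (m : ℕ) (hm0 : 0 < m) (hmn : m < n) : ∑ y ∈ s, (y⁻¹) ^ m = 0 := by
  have hn0 : n ≠ 0 := by omega
  have hω := Complex.isPrimitiveRoot_exp n hn0
  obtain ⟨ω, hω⟩ : ∃ ω : ℂ, IsPrimitiveRoot ω n := ⟨_, hω⟩
  have hω0 : ω ≠ 0 := hω.ne_zero hn0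
  have h1 : ∑ y ∈ s, (y⁻¹) ^ m = ∑ y ∈ s, ((ω * y)⁻¹) ^ m := by
    symm
    refine Finset.sum_nbij' (fun y => ω * y) (fun y => ω⁻¹ * y) ?_ ?_ ?_ ?_ ?_
    · intro y hy
      rw [hs] at hy ⊢
      rw [mul_pow, hω.pow_eq_one, one_mul, hy]
    · intro y hy
      rw [hs] at hy ⊢
      rw [mul_pow, inv_pow, hω.pow_eq_one, inv_one, one_mul, hy]
    · intro y _
      exact inv_mul_cancel_left₀ hω0 y
    · intro y _
      exact mul_inv_cancel_left₀ hω0 y
    · intro y _
      rfl
  have h2 : ∑ y ∈ s, ((ω * y)⁻¹) ^ m = (ω⁻¹) ^ m * ∑ y ∈ s, (y⁻¹) ^ m := by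
    rw [Finset.mul_sum]
    apply Finset.sum_congr rfl
    intro y _
    rw [mul_inv, mul_pow]
  have h3 : (1 - (ω⁻¹) ^ m) * ∑ y ∈ s, (y⁻¹) ^ m = 0 := by
    rw [sub_mul, one_mul, ← h2, ← h1, sub_self]
  rcases mul_eq_zero.1 h3 with h | h
  · exfalso
    have h4 : ω ^ m = 1 := by
      rw [sub_eq_zero, inv_pow] at h
      rw [← inv_inj, ← h, inv_one]
    exact hω.pow_ne_one_of_pos_of_lt hm0.ne' hmn h4
  · exact h

theorem UER_lam (n k : ℕ) [NeZero k] (c : ℂ) (b g : ZMod k → ℂ) :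
    PPS.lam (Polynomial.X ^ n + Polynomial.C c) b g 0 = ∑ i, g i := by
  unfold PPS.lam
  simp only [Nat.cast_zero, zero_mul, zero_div, pow_zero, mul_one, zero_add]
  exact Equiv.sum_comp (Equiv.addRight (1 : ZMod k)) g

theorem UER (hPRB : PPS.PRB_stmt) (hTB : PPS.TB_stmt) : UER_stmt := by
  intro n k _ c b g hn hc hcyc hg
  obtain ⟨f, hf⟩ : ∃ f : Polynomial ℂ, f = Polynomial.X ^ n + Polynomial.C c := ⟨_, rfl⟩
  have hn0 : (n : ℂ) ≠ 0 := by
    exact_mod_cast (by omega : n ≠ 0)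
  have hdeg : (Polynomial.X ^ n + Polynomial.C c : Polynomial ℂ).natDegree = n := UER_deg n hn c
  have hBd : PPS.Bd n 3 (Polynomial.X ^ n + Polynomial.C c) := by
    refine ⟨hdeg, ?_, ?_⟩
    · intro i
      rw [Polynomial.coeff_add, Polynomial.coeff_X_pow, Polynomial.coeff_C]
      by_cases hi : i = n
      · rw [if_pos hi, if_neg (by omega), add_zero, norm_one]
        norm_num
      · rw [if_neg hi, zero_add]
        split_ifs
        · exact hc
        · rw [norm_zero]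
          norm_num
    · rw [Polynomial.leadingCoeff_X_pow_add_C (by omega), norm_one]
      norm_num
  have hIs : PPS.IsCyc (Polynomial.X ^ n + Polynomial.C c) b := by
    refine ⟨hcyc.inj, ?_, ?_⟩
    · intro i
      rw [Polynomial.eval_add, Polynomial.eval_pow, Polynomial.eval_X, Polynomial.eval_C]
      exact hcyc.step i
    · intro i
      rw [UER_fd]
      exact mul_ne_zero hn0 (pow_ne_zero _ (hcyc.ne0 i))
  have hEx : PPS.Exact (Polynomial.X ^ n + Polynomial.C c) b g := by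
    intro i
    rw [UER_fd, UER_fdd n hn]
    exact hg i
  refine ⟨hBd, hIs, hEx, ?_, ?_⟩
  · unfold PPS.rho MPS.rho
    exact Finset.prod_congr rfl fun i _ => UER_fd n c (b i)
  · obtain ⟨hmem, hcard, hnd, _⟩ := hPRB (Polynomial.X ^ n + Polynomial.C c)
      (by rw [hdeg]; omega)
    have hfin : ({c} ∪ Set.range b : Set ℂ).Finite :=
      (Set.finite_singleton c).union (Set.finite_range b)
    have hae : ∀ᵐ z : ℂ, z ∉ ({c} ∪ Set.range b : Set ℂ) := by
      have := hfin.measure_zero (volume : Measure ℂ)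
      exact measure_eq_zero_iff_ae_notMem.1 this
    filter_upwards [hae] with z hz
    have hzc : z ≠ c := fun h => hz (Or.inl h)
    have hzb : ∀ i, z ≠ b i := fun i h => hz (Or.inr ⟨i, h.symm⟩)
    have hzCV : z ∉ PPS.CV (Polynomial.X ^ n + Polynomial.C c) := fun h =>
      hzc (UER_CV n hn c h)
    rw [(hTB n k _ b g hn hdeg hIs hEx z hzCV hzb).2]
    have hzc0 : z - c ≠ 0 := sub_ne_zero.2 hzc
    obtain ⟨s, hs⟩ : ∃ s : Finset ℂ, s.val = PPS.pre (Polynomial.X ^ n + Polynomial.C c) z :=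
      ⟨⟨_, hnd z hzCV⟩, rfl⟩
    have hsmem : ∀ y, y ∈ s ↔ y ^ n = z - c := by
      intro y
      rw [← Finset.mem_val, hs, hmem, Polynomial.eval_add, Polynomial.eval_pow,
        Polynomial.eval_X, Polynomial.eval_C, eq_sub_iff_add_eq]
    have hscard : s.card = n := by
      rw [Finset.card_def, hs, hcard, hdeg]
    unfold PPS.TT
    rw [← hs]
    have h1 : (Multiset.map (fun y => PPS.QQ (Polynomial.X ^ n + Polynomial.C c) b g y /
        PPS.fd (Polynomial.X ^ n + Polynomial.C c) y ^ 2) s.val).sum =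
        ∑ y ∈ s, ∑ m ∈ Finset.range (n - 1),
          PPS.lam (Polynomial.X ^ n + Polynomial.C c) b g m * (1 / ((n : ℂ) * (z - c))) *
            (y⁻¹) ^ m := by
      change ∑ y ∈ s, PPS.QQ (Polynomial.X ^ n + Polynomial.C c) b g y /
        PPS.fd (Polynomial.X ^ n + Polynomial.C c) y ^ 2 = _
      apply Finset.sum_congr rfl
      intro y hy
      rw [hsmem] at hy
      have hy0 : y ≠ 0 := by
        rintro rfl
        rw [zero_pow (by omega)] at hy
        exact hzc0 hy.symm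
      rw [UER_QQ n k hn, UER_fd, Finset.sum_div]
      apply Finset.sum_congr rfl
      intro m hm
      rw [Finset.mem_range] at hm
      unfold MPS.fd
      rw [← hy]
      have h2 : ((n : ℂ) * y ^ (n - 1)) ^ 2 = (n : ℂ) ^ 2 * (y ^ n * (y ^ (n - 2 - m) * y ^ m)) := by
        rw [mul_pow, ← pow_mul, ← pow_add, ← pow_add]
        congr 2
        omega
      rw [h2]
      have hA : y ^ (n - 2 - m) ≠ 0 := pow_ne_zero _ hy0
      have hB : y ^ m ≠ 0 := pow_ne_zero _ hy0
      have hC : y ^ n ≠ 0 := pow_ne_zero _ hy0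
      rw [inv_pow]
      field_simp
    rw [h1, Finset.sum_comm]
    have h3 : ∀ m ∈ Finset.range (n - 1), m ≠ 0 →
        ∑ y ∈ s, PPS.lam (Polynomial.X ^ n + Polynomial.C c) b g m *
          (1 / ((n : ℂ) * (z - c))) * (y⁻¹) ^ m = 0 := by
      intro m hm hm0
      rw [Finset.mem_range] at hm
      rw [← Finset.mul_sum, UER_root n (z - c) s hsmem m (Nat.pos_of_ne_zero hm0) (by omega),
        mul_zero]
    rw [Finset.sum_eq_single_of_mem 0 (Finset.mem_range.2 (by omega)) h3]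
    simp only [pow_zero, mul_one]
    rw [Finset.sum_const, hscard, nsmul_eq_mul, UER_lam]
    field_simp

end V3W
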