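import Pool.Agent.helper54.V3.SpecG

/-!
# Project v3:GZE (MP_af9036_an): zeros of the limit are limits of zeros of `T j`, with multiplicity
-/

set_option autoImplicit false

open Complex Metric Set Filter Topology MeasureTheory MPS V3

noncomputable section

namespace V3S

theorem GZE (hGHP : GHP_stmt) (hGTC : GTC_stmt) (hTHM : V3.THM_stmt) (hREG : REG_stmt)
    (hBA1 : BA1_stmt) (hBA2 : BA2_stmt) : GZE_stmt := by
  intro n ra Cf D hS hL z₀ N hz₀ hord ε hε
  by_contra hc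
  rw [UF_not] at hc
  obtain ⟨-, -, hiso⟩ := hREG n ra Cf D hS
  obtain ⟨ε₀, hε₀, hreg⟩ := hiso z₀
  have hr : 0 < ε₀ / 2 := by positivity
  set r : ℝ := ε₀ / 2 with hrdef
  have hK : closedBall z₀ r ⊆ (Pin D)ᶜ := by
    intro x hx
    by_cases hxz : x = z₀
    · rw [hxz]; exact hz₀
    · have hx' : x ∈ ball z₀ ε₀ := by
        rw [mem_closedBall] at hx
        rw [mem_ball]
        linarith
      exact (hreg x hx' hxz).1
  have hKc : IsCompact (closedBall z₀ r) := isCompact_closedBall z₀ r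
  classical
  -- bad indices
  let P : ℕ → ℕ → Prop := fun m j => ∃ (S : Finset ℂ) (μ : ℂ → ℕ),
    (∀ z ∈ S, z ∈ ball z₀ ε ∧ OrdGe ((D m).T j) z (μ z)) ∧ ∑ z ∈ S, μ z = N
  have hj : ∃ j : ℕ → ℕ, (∀ m, j m ≤ (D m).k) ∧ ∀ m, (¬ ∀ i ≤ (D m).k, P m i) → ¬ P m (j m) := by
    have key : ∀ m, ∃ i, i ≤ (D m).k ∧ ((¬ ∀ i ≤ (D m).k, P m i) → ¬ P m i) := by
      intro m
      by_cases h : ∀ i ≤ (D m).k, P m i
      · exact ⟨0, Nat.zero_le _, fun h' => absurd h h'⟩
      · have h2 := h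
        push Not at h2
        obtain ⟨i, hi, hi2⟩ := h2
        exact ⟨i, hi, fun _ => hi2⟩
    choose j hj1 hj2 using key
    exact ⟨j, hj1, hj2⟩
  obtain ⟨j, hjk, hjbad⟩ := hj
  have hev1 : ∀ᶠ m in UF, DifferentiableOn ℂ ((D m).T (j m)) (ball z₀ r) := by
    filter_upwards [hGHP n ra Cf D hS hL (closedBall z₀ r) hKc hK] with m hm
    intro x hx
    have hx' : x ∈ closedBall z₀ r := ball_subset_closedBall hx
    obtain ⟨-, -, -, -, -, -, hFd, -⟩ := hBA1 n ra Cf (D m) (hS.good m)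
    obtain ⟨-, hBd, -⟩ := hBA2 n ra Cf (D m) (hS.good m)
    have h1 : DifferentiableAt ℂ (D m).B ((D m).F (j m) x) := hBd _ (hm (j m) (hjk m) x hx')
    have h2 : DifferentiableAt ℂ ((D m).F (j m)) x := hFd (j m) x
    have h3 : DifferentiableAt ℂ (deriv ((D m).F (j m))) x := (hFd (j m)).deriv x
    have h4 : DifferentiableAt ℂ (fun y => (D m).B ((D m).F (j m) y)) x := h1.comp x h2
    exact ((h3.pow 2).mul h4).differentiableWithinAt
  have hev2 : TendstoLocallyUniformlyOn (fun m => (D m).T (j m)) (Bin D) UF (ball z₀ r) := by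
    have hu : TendstoUniformlyOn (fun m => (D m).T (j m)) (Bin D) UF (ball z₀ r) := by
      rw [Metric.tendstoUniformlyOn_iff]
      intro e he
      filter_upwards [hGTC n ra Cf D hS hL (closedBall z₀ r) hKc hK (e / 2) (by positivity)] with m hm
      intro x hx
      have := hm (j m) (hjk m) x (ball_subset_closedBall hx)
      rw [dist_comm, dist_eq_norm]
      linarith
    exact hu.tendstoLocallyUniformlyOn
  have hne : ∃ x ∈ ball z₀ r, Bin D x ≠ 0 := by
    refine ⟨z₀ + ((r / 2 : ℝ) : ℂ), ?_, ?_⟩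
    · rw [mem_ball, dist_eq_norm]
      have : z₀ + ((r / 2 : ℝ) : ℂ) - z₀ = ((r / 2 : ℝ) : ℂ) := by ring
      rw [this, Complex.norm_real, Real.norm_eq_abs, abs_of_pos (by positivity)]
      linarith
    · refine (hreg _ ?_ ?_).2
      · rw [mem_ball, dist_eq_norm]
        have : z₀ + ((r / 2 : ℝ) : ℂ) - z₀ = ((r / 2 : ℝ) : ℂ) := by ring
        rw [this, Complex.norm_real, Real.norm_eq_abs, abs_of_pos (by positivity)]
        linarith
      · intro h
        have h2 : ((r / 2 : ℝ) : ℂ) = 0 := by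
          have := congrArg (fun t => t - z₀) h
          simpa using this
        rw [Complex.ofReal_eq_zero] at h2
        linarith
  have hfin := hTHM (hyperfilter ℕ) (fun m => (D m).T (j m)) (Bin D) z₀ r (min ε r) N hr (lt_min hε hr)
    (min_le_right _ _) hev1 hev2 hne hord
  have hfin' : ∀ᶠ m in UF, ∃ (S : Finset ℂ) (μ : ℂ → ℕ),
    (∀ z ∈ S, z ∈ ball z₀ (min ε r) ∧ OrdGe ((D m).T (j m)) z (μ z)) ∧ ∑ z ∈ S, μ z = N := hfin
  obtain ⟨m, hm1, hm2⟩ := (hfin'.and hc).exists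
  obtain ⟨S, μ, h1, h2⟩ := hm1
  exact hjbad m hm2 ⟨S, μ, fun z hz => ⟨ball_subset_ball (min_le_left _ _) (h1 z hz).1, (h1 z hz).2⟩, h2⟩

end V3S
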